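import Pool.Agent.H78.GX.H78.GS.TA3

/-!
# The displacements up to the scale `5 L`
-/

set_option autoImplicit false

open Finset Pool.Agent.H6.N4D Pool.Agent.H78.GX.H6.N4D Pool.Agent.H78.GX Pool.Agent.H78.GX.H78.GS

namespace Pool.Agent.H78.GX.H43.GS3

theorem cut_cut (S : Par) (a b : ℤ) : cut (cut S a) b = cut S (a + b) := by
  unfold cut
  simp only [Par.mk.injEq, true_and]
  constructor <;> ring

theorem inv_mono {S : Par} {RP RW : ℕ → ℤ → ℕ → ℕ → Prop} {e e' : ℝ} {F : ℤ → Finset ℕ}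
    (hN : 0 ≤ S.N) (he : e ≤ e') (h : Inv S RP RW e F) : Inv S RP RW e' F where
  pr := h.pr.trans (mul_le_mul_of_nonneg_right he hN)
  sh := fun w h1 h2 => (h.sh w h1 h2).trans (mul_le_mul_of_nonneg_right he hN)

/-- DSP. -/
theorem pf_DSP (hPIB : T_PIB) (hGDA : T_GDA) (hDIC : T_DIC) (hSTA : T_STA) (hIND : T_IND)
    (hCTP : T_CTP) (hRST : T_RST) (hSIZ : T_SIZ) : T_DSP := by
  intro B c X₁ hgap r₀
  obtain ⟨C₁, hC₁, hP⟩ := hPIB B c X₁ hgap r₀
  refine ⟨C₁, hC₁, ?_⟩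
  intro C K e₁ ν e' hC hBK hK hCK he0 he1 hν0 hν1 he'0 he'1
  have hK1 : 1 ≤ K := by omega
  have hKR : (200 : ℝ) ≤ K := by exact_mod_cast hK
  obtain ⟨eP, XP, heP0, heP1, hPIB'⟩ := hP C K 1 (ν / 64) e' hC hBK one_pos (by linarith) he'0 he'1
  obtain ⟨XG, hG⟩ := hGDA K r₀ e₁ eP hK1 he0 (by linarith) heP0
  obtain ⟨XI, hI⟩ := hIND K hK1
  obtain ⟨XS, hS⟩ := hSIZ
  set κ₀ : ℝ := C / (K : ℝ) ^ 2 with hκ₀
  have hκ₀0 : 0 < κ₀ := by
    have : 0 < C := by linarith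
    positivity
  refine ⟨min (eP / 8) (min (ν / 100) (min (1 / 100) (e' / 2))), max (max XP XG) (max XI XS),
    ?_, ?_, ?_⟩
  · refine lt_min (by linarith) (lt_min (by linarith) (lt_min (by norm_num) (by linarith)))
  · exact (min_le_right _ _).trans ((min_le_right _ _).trans (min_le_right _ _))
  set e : ℝ := min (eP / 8) (min (ν / 100) (min (1 / 100) (e' / 2))) with hedef
  have hee1 : e ≤ eP / 8 := min_le_left _ _
  have hee2 : e ≤ ν / 100 := (min_le_right _ _).trans (min_le_left _ _)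
  have hee3 : e ≤ 1 / 100 := (min_le_right _ _).trans ((min_le_right _ _).trans (min_le_left _ _))
  have hee0 : 0 < e := lt_min (by linarith) (lt_min (by linarith)
    (lt_min (by norm_num) (by linarith)))
  intro S m Δ s ε e₀ c₀ F₀ F θ φ hOk hSK hX hε0 hε1 he₀ hBnd hm hFF hctx hMnl
  have hXP : XP ≤ S.X := (le_max_left _ _).trans ((le_max_left _ _).trans hX)
  have hXG : XG ≤ S.X := (le_max_right _ _).trans ((le_max_left _ _).trans hX)
  have hXI : XI ≤ S.X := (le_max_left _ _).trans ((le_max_right _ _).trans hX)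
  have hXS : XS ≤ S.X := (le_max_right _ _).trans ((le_max_right _ _).trans hX)
  have hL1 : 1 ≤ S.L := (hS S hOk hXS).1
  have hrho : S.rho ≤ 1 / 100 := (hS S hOk hXS).2.2.2.1
  have hh4 : S.h ≤ S.rho ^ 4 := (hS S hOk hXS).2.2.2.2.1
  have hV : 1 ≤ S.V := (hS S hOk hXS).2.2.2.2.2.2.2.1
  have hh : 0 < S.h := hOk.hh
  have hr0 : 0 < S.rho := hOk.hr0
  have hKL : (200 : ℝ) * S.L ≤ K * S.L := mul_le_mul_of_nonneg_right hKR (by linarith)
  -- the two inner stretches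
  have hd1 : 12 * S.L ≤ Δ * S.h := hctx.d1
  have hd2 : Δ * S.h ≤ 13 * S.L := hctx.d2
  have hΔ0 : 0 ≤ Δ := by
    have h1 : 0 < (Δ : ℝ) * S.h := by linarith
    have h2 : 0 < (Δ : ℝ) := (mul_pos_iff_of_pos_right hh).mp h1
    have : (0 : ℤ) < Δ := by exact_mod_cast h2
    exact this.le
  have hN2 : (cut (cut S m) Δ).N = (cut S m).N - 2 * Δ := by
    unfold Par.N cut
    push_cast
    ring
  have h12 : 12 * (S.K * S.L) ≤ (cut (cut S m) Δ).N * S.h := by
    have := hctx.ok2.hI1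
    calc 12 * (S.K * S.L) = 12 * S.K * S.L := by ring
      _ ≤ (cut (cut S m) Δ).N * S.h := this
  have h12' : 12 * (S.K * S.L) ≤ (cut S m).N * S.h - 2 * (Δ * S.h) := by
    rw [hN2] at h12
    linarith
  have hN2pos : 0 < (cut (cut S m) Δ).N := by
    have : 0 < (cut (cut S m) Δ).N * S.h := by
      rw [hSK] at h12
      linarith
    exact (mul_pos_iff_of_pos_right hh).mp this
  obtain ⟨-, -, -, -, c13, cI, cT, cE, cV⟩ := hCTP (cut S m) Δ hctx.ok hΔ0 h12'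
  have hinv1 : Inv (cut S m) (RE S e₀ θ φ) (RS S e₀ θ φ) e F := hctx.inv
  have hrst := hRST (cut S m) Δ (RE S e₀ θ φ) (RS S e₀ θ φ) e (2 * κ₀) F s hctx.ok hΔ0 h12' hee0.le
    (by positivity)
  have hinv2 : Inv (cut (cut S m) Δ) (RE S e₀ θ φ) (RS S e₀ θ φ) eP F :=
    inv_mono hN2pos.le (by linarith) (hrst.1 hinv1)
  have hrk2 : Rk (cut (cut S m) Δ) (3 * κ₀) F s := by
    have := hrst.2 hctx.rk
    have h3 : 3 / 2 * (2 * κ₀) = 3 * κ₀ := by ring
    rwa [h3] at this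
  have hMnl2 : Mnl (cut (cut S m) Δ) (RE S e₀ θ φ) (RS S e₀ θ φ) e' κ₀ F s := by
    rw [cut_cut]
    exact hMnl
  -- the dichotomy
  have hN1 : 0 ≤ (cut S m).N := by
    have : (0 : ℝ) ≤ Δ := by exact_mod_cast hΔ0
    linarith
  have hpi : ∀ (D : ℕ) (c : ℝ), (D : ℤ) ≤ Δ → |c| ≤ 1 / S.rho ^ 2 →
      ∃ z : ℝ, (cut (cut S m) Δ).cnt (fun t => ∃ j ∈ F t,
        ν / 64 < |Gd (cut (cut S m) Δ) e₁ θ F D c t j - z|) ≤
          5 * κ₀ * (cut (cut S m) Δ).N := by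
    intro D c hD hc
    have hg := hG (cut S m) Δ e₀ c D F θ φ hctx.ok hSK hXG hΔ0 h12' hctx.e0
      (by
        have : e * e₁ / 100 ≤ eP * e₁ / 100 := by
          have : e * e₁ ≤ eP * e₁ := mul_le_mul_of_nonneg_right (by linarith) he0.le
          linarith
        linarith) hctx.sub (inv_mono hN1 hee1 hctx.inv) hD hc
    exact hPIB' (cut (cut S m) Δ) hctx.ok2 hSK hXP (RE S e₀ θ φ) (RS S e₀ θ φ) F s
      (Gd (cut (cut S m) Δ) e₁ θ F D c) hctx.sub hinv2 hrk2 hMnl2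
      (fun t j => by
        have h1 := (hg.1 t j).1
        have h2 := (hg.1 t j).2
        rw [abs_le]
        constructor
        · refine le_trans (by norm_num) h1
        · exact h2) hg.2
  have hdic16 : ∀ (D : ℕ) (c : ℝ), (D : ℤ) ≤ Δ → |c| ≤ 1 / S.rho ^ 2 →
      Hit (cut (cut S m) Δ) e₁ (5 * κ₀) (ν / 16) θ F D c ∨
        Mis (cut (cut S m) Δ) e₁ (5 * κ₀) (ν / 32) θ F D c := by
    intro D c hD hc
    obtain ⟨z, hz⟩ := hpi D c hD hc
    have h1 : ν / 16 / 4 = ν / 64 := by ring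
    have h2 : ν / 16 / 2 = ν / 32 := by ring
    have := hDIC (cut (cut S m) Δ) e₁ (5 * κ₀) (ν / 16) z c θ F D (by linarith) (by linarith)
      (by rw [h1]; exact hz)
    rwa [h2] at this
  have hdic1 : ∀ (D : ℕ), (D : ℤ) ≤ Δ →
      Hit (cut (cut S m) Δ) e₁ (5 * κ₀) ν θ F D 0 ∨
        Mis (cut (cut S m) Δ) e₁ (5 * κ₀) (ν / 2) θ F D 0 := by
    intro D hD
    obtain ⟨z, hz⟩ := hpi D 0 hD (by rw [abs_zero]; positivity)
    refine hDIC (cut (cut S m) Δ) e₁ (5 * κ₀) ν z 0 θ F D hν0 (by linarith) ?_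
    refine le_trans (Par.cnt_mono ?_) hz
    rintro t - ⟨j, hj, hlt⟩
    exact ⟨j, hj, by linarith⟩
  have hκ5 : 5 * κ₀ ≤ 1 / 1000 := hCK
  have hrho4 : S.rho ^ 4 ≤ 1 / 100 := by
    have h2 : S.rho ^ 4 ≤ (1 / 100) ^ 4 := pow_le_pow_left₀ hr0.le hrho 4
    norm_num at h2 ⊢
    linarith
  have hsmallD : ∀ D : ℕ, (D : ℝ) * S.h ≤ S.rho / 4 → (D : ℤ) + 1 ≤ Δ := by
    intro D hD
    have h1 : ((D : ℝ) + 1) * S.h < Δ * S.h := by
      have : ((D : ℝ) + 1) * S.h = D * S.h + S.h := by ring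
      rw [this]
      linarith
    have h2 : (D : ℝ) + 1 < Δ := lt_of_mul_lt_mul_right h1 hh.le
    have h3 : ((D : ℤ) + 1 : ℤ) < Δ := by exact_mod_cast h2
    exact h3.le
  have hrk1 : (cut S m).cnt (fun t => (F t).card ≠ s) ≤ 2 * κ₀ * (cut S m).N := hctx.rk
  -- the start
  have hstart : HT (cut (cut S m) Δ) e₁ (5 * κ₀) ν θ F 0 ⌊S.rho / (4 * S.h)⌋₊ := by
    have hmΔ : 0 ≤ m + Δ := by omega
    have hstep : ∀ D : ℕ, (D : ℝ) * S.h ≤ S.rho / 4 → (cut (cut S m) Δ).cnt (fun t =>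
        ¬ ∀ j ∈ F (t + D), ∃ i ∈ F (t + D + 1), RS S e₀ θ φ 1 (t + D) j i) ≤
          2 * e * (cut (cut S m) Δ).N := by
      intro D hD
      have hD1 := hsmallD D hD
      have h1 := hinv1.sh 1 le_rfl hV
      have h2 := cV (fun t => t + ((1 : ℕ) : ℤ) ∈ (cut S m).I ∧
        ¬ Bij (RS S e₀ θ φ 1 t) (F t) (F (t + ((1 : ℕ) : ℤ)))) (D : ℤ)
        (by rw [abs_of_nonneg (by omega)]; omega)
      have h3 : (cut (cut S m) Δ).cnt (fun t =>
          ¬ ∀ j ∈ F (t + D), ∃ i ∈ F (t + D + 1), RS S e₀ θ φ 1 (t + D) j i) ≤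
          (cut (cut S m) Δ).cnt (fun t => t + (D : ℤ) + ((1 : ℕ) : ℤ) ∈ (cut S m).I ∧
            ¬ Bij (RS S e₀ θ φ 1 (t + (D : ℤ))) (F (t + (D : ℤ)))
              (F (t + (D : ℤ) + ((1 : ℕ) : ℤ)))) := by
        refine Par.cnt_mono fun t ht hno => ⟨?_, fun hb => hno fun j hj => ?_⟩
        · have := cT t ht ((D : ℤ) + 1) (by rw [abs_of_nonneg (by omega)]; omega)
          rw [Nat.cast_one, add_assoc]
          exact this
        · obtain ⟨i, ⟨hi1, hi2⟩, -⟩ := hb.1 j hj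
          refine ⟨i, ?_, hi2⟩
          rw [Nat.cast_one] at hi1
          exact hi1
      have h4 : e * (cut S m).N ≤ e * (13 / 12 * (cut (cut S m) Δ).N) :=
        mul_le_mul_of_nonneg_left c13 hee0.le
      have h5 : 0 ≤ e * (cut (cut S m) Δ).N := by positivity
      linarith [h3.trans (h2.trans h1)]
    have hempty : (cut (cut S m) Δ).cnt (fun t => F t = ∅) ≤
        5 * κ₀ * (cut (cut S m) Δ).N := by
      refine le_trans (Par.cnt_mono (F := fun t => (F t).card ≠ s) ?_) (le_trans hrk2 ?_)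
      · intro t _ h
        rw [h, card_empty]
        have := hctx.s1
        omega
      · apply mul_le_mul_of_nonneg_right _ hN2pos.le
        linarith
    have hrho4' : S.rho / 4 ≤ ((m + Δ : ℤ) : ℝ) * S.h := by
      have : (0 : ℝ) ≤ m := by exact_mod_cast hm
      push_cast
      nlinarith [mul_nonneg this hh.le]
    rw [cut_cut] at hstep hempty hN2pos hdic1 ⊢
    have hok2 := hctx.ok2
    rw [cut_cut] at hok2
    exact hSTA S (m + Δ) e₁ (5 * κ₀) ν (2 * e) e₀ ε θ φ F₀ F hOk hok2 hN2pos he0 (by linarith) hν0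
      (by linarith) hctx.e0
      (by
        have h1 : e * e₁ / 100 ≤ ν / 100 * e₁ / 100 := by
          have := mul_le_mul_of_nonneg_right hee2 he0.le
          linarith
        have h2 : 0 ≤ ν * e₁ := by positivity
        linarith) (by positivity) (by linarith) (by positivity) (by linarith) hε0
      (by linarith) hmΔ hrho4' hBnd.sep hBnd.shf hFF hempty hstep
      (fun D hD => hdic1 D (by have := hsmallD D hD; omega))
  -- the induction
  have hΔN : ((Δ.toNat : ℕ) : ℤ) = Δ := Int.toNat_of_nonneg hΔ0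
  have hΔR : ((Δ.toNat : ℕ) : ℝ) = (Δ : ℝ) := by exact_mod_cast hΔN
  have hsep2 : Sep (cut (cut S m) Δ) θ F := fun t ht => hctx.sep t (cI ht)
  obtain ⟨T, N, hT, hN5, hNM, hHT⟩ := hI (cut (cut S m) Δ) e₁ (5 * κ₀) ν s Δ.toNat θ F hctx.ok2 hSK
    hXI he0 he1 hν0 hν1 (by positivity) hκ5 hctx.s1 hsep2
    (le_trans hrk2 (mul_le_mul_of_nonneg_right (by linarith) hN2pos.le))
    (by
      rw [hΔR]
      have : (10 : ℝ) * S.L ≤ Δ * S.h := by linarith
      exact this)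
    (by
      rw [hΔR]
      have h1 : (Δ : ℝ) * S.h ≤ (cut (cut S m) Δ).N / 100 * S.h := by
        rw [hSK] at h12
        linarith
      exact le_of_mul_le_mul_right h1 hh)
    (fun D hD => by
      have hD' : (D : ℤ) ≤ Δ := by omega
      have h1 := cV (fun t => (F t).card ≠ s) (D : ℤ) (by rw [abs_of_nonneg (by omega)]; exact hD')
      have h2 : 2 * κ₀ * (cut S m).N ≤ 2 * κ₀ * (13 / 12 * (cut (cut S m) Δ).N) :=
        mul_le_mul_of_nonneg_left c13 (by positivity)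
      have h3 : 0 ≤ κ₀ * (cut (cut S m) Δ).N := by positivity
      have h4 := h1.trans (hrk1.trans h2)
      linarith)
    (fun D c hD hc => hdic16 D c (by omega) hc) hstart
  refine ⟨T, N, hT, hN5, by omega, ?_⟩
  rw [← cut_cut]
  exact hHT

end Pool.Agent.H78.GX.H43.GS3
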